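import Mathlib
import Pool.Agent.Helper11.K3H.PowDefs
import Pool.Agent.Helper11.K3H.PowFin

/-!
The symbol `{q₀, q₁, q₂}`, `q_j = (x_j - 1) / x_j`, on the affine surfaces
`c ∏ⱼ x_j^(p_j) (1 - x_j)^(q_j) = 1`, `1 ≤ p₀ = q₀ ≤ p₁, p₂`, `q₁ ∈ {p₁, 2p₁}`, `q₂ ∈ {p₂, 2p₂}`,
for all integers `c` between `0` and the critical value `C = ∏ⱼ (p_j+q_j)^(p_j+q_j) / (p_j^p_j q_j^q_j)`:
it is unramified and its regulator does not vanish. For `p = (1,1,1), (1,1,1), (1,2,1), (1,3,1)` and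
`q = (1,1,1), (1,1,2), (1,2,1), (1,3,2)` (`C = 64, 108, 256, 1728`) the smooth proper
models are K3 surfaces whose real Deligne cohomology `H³(ℝ(3))` is one-dimensional.
-/

namespace Pool.Agent.Results.MP_a09a03_nt.K3HypergeometricOnto

open Pool.Agent.Helper11 Pool.Agent.Helper11.K3H

theorem result (p q : Fin 3 → ℕ) (h0 : 1 ≤ p 0) (h1 : p 0 ≤ p 1) (h2 : p 0 ≤ p 2)
    (k0 : q 0 = p 0) (k1 : q 1 = p 1 ∨ q 1 = 2 * p 1) (k2 : q 2 = p 2 ∨ q 2 = 2 * p 2)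
    (c : ℤ) (hc0 : 0 < c) (hc1 : (c : ℝ) < powCrit p q) :
    ∃ u v : Fin 3 → (PowRing p q c)ˣ,
      (∀ j, (u j : PowRing p q c) = powX p q c j) ∧
      (∀ j, (v j : PowRing p q c) = powX p q c j - 1) ∧
      Unramified (symM fun j => v j / u j) ∧
      ∃ R : KMQ (PowRing p q c) 3 →ₗ[ℚ] ℝ,
        IsTorusRegulator (n := 2) R ∧ R (symM fun j => v j / u j) ≠ 0 :=
  pow_final p q h0 h1 h2 k0 k1 k2 c hc0 hc1

end Pool.Agent.Results.MP_a09a03_nt.K3HypergeometricOnto
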